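import Pool.Agent.W838.DC.Zs

/-!
Project DC, part E12: two reflections acting on the same interval (with `u ≤ v`).
-/

set_option autoImplicit false

namespace Pool.Agent.W803.DC

open Pool.Agent.W838.DC

variable {B : Type*} {M : CoxeterMatrix B} {W : Type*} [Group W] (cs : CoxeterSystem M W)

variable {cs}

theorem ble_len {x y : W} (h : BLe cs x y) : cs.length x ≤ cs.length y := by
  induction h with
  | refl => exact le_refl _
  | tail _ hbc ih =>
    obtain ⟨t, _, _, hl⟩ := hbc
    exact ih.trans hl.le

theorem ble_len_lt {x y : W} (h1 : BLe cs x y) (h2 : x ≠ y) : cs.length x < cs.length y := by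
  rcases Relation.ReflTransGen.cases_head h1 with h3 | ⟨c, hc, hcy⟩
  · exact absurd h3 h2
  · obtain ⟨t, _, _, hl⟩ := hc
    exact lt_of_lt_of_le hl (ble_len hcy)

/-- the top of a hexagon -/
theorem hex_top {s t q : W} (hs : s * s = 1) (ht : t * t = 1) (h : Hex cs s t q) (h1 : cs.length (s * q) < cs.length q)
    (h2 : cs.length (t * q) < cs.length q) :
    cs.length (s * t * s * q) + 3 ≤ cs.length q := by
  obtain ⟨z, hz, a1, a2, a3, a4, a5, a6⟩ := h
  rcases hz with rfl | rfl | rfl | rfl | rfl | rfl
  · omega
  · omega
  · omega
  · omega
  · omega
  · have h3 : s * t * s * (s * (t * (s * z))) = z := by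
      calc s * t * s * (s * (t * (s * z))) = s * t * (s * s) * (t * (s * z)) := by group
        _ = s * (t * t) * (s * z) := by rw [hs]; group
        _ = (s * s) * z := by rw [ht]; group
        _ = z := by rw [hs, one_mul]
    rw [h3]
    omega

/-- E12 -/
theorem e12' (h1 : S_RES cs) (h2 : S_HEX cs) : ∀ u v a b : W, BLe cs u v → Stab cs u v a →
    Stab cs u v b → a ≠ b →
    Stab cs u (a * v) b ∧ (a * b ≠ b * a → Stab cs u (b * (a * v)) a) := by
  intro u v a b huv hA hB hab
  have ha := hA.refl
  have hb := hB.refl
  have haa : a * a = 1 := ha.mul_self
  have hbb : b * b = 1 := hb.mul_self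
  have hv : InInt cs u v v := ⟨huv, Relation.ReflTransGen.refl⟩
  have hav := hA.maps v hv
  have hbv := hB.maps v hv
  have lav : cs.length v = cs.length (a * v) + 1 := by
    rcases hA.len v hv with h | h
    · have := ble_len hav.2
      omega
    · exact h
  have lbv : cs.length v = cs.length (b * v) + 1 := by
    rcases hB.len v hv with h | h
    · have := ble_len hbv.2
      omega
    · exact h
  have hbav := hB.maps (a * v) hav
  have lbav : cs.length (a * v) = cs.length (b * (a * v)) + 1 := by
    rcases hB.len (a * v) hav with h | h
    · exfalso
      have h3 : b * (a * v) = v := by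
        by_contra hne
        have := ble_len_lt hbav.2 hne
        omega
      have h4 : b * a = 1 := by
        have h5 : (b * a) * v = 1 * v := by rw [mul_assoc, h3, one_mul]
        exact mul_right_cancel h5
      apply hab
      calc a = (b * b) * a := by rw [hbb, one_mul]
        _ = b * (b * a) := by rw [mul_assoc]
        _ = b := by rw [h4, mul_one]
    · exact h
  have s1 : Stab cs u (a * v) b := h1 u v b hB (a * v) hav (by omega)
  refine ⟨s1, fun hne => ?_⟩
  rcases hA.len (b * (a * v)) hbav with h | h
  · exfalso
    obtain ⟨h5, h6⟩ := h2 a b ha hb hne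
    have lcv : cs.length (a * b * a * v) + 1 = cs.length v := by
      have : a * b * a * v = a * (b * (a * v)) := by group
      rw [this]
      omega
    rcases h6 with h6 | h6 | h6
    · have := hex_top haa hbb (h6 v) (by omega) (by omega)
      omega
    · have hcc : (a * b * a) * (a * b * a) = 1 := by
        calc (a * b * a) * (a * b * a) = a * b * (a * a) * b * a := by group
          _ = a * (b * b) * a := by rw [haa]; group
          _ = a * a := by rw [hbb]; group
          _ = 1 := haa
      have e1 : a * (a * b * a) * a = b := by
        calc a * (a * b * a) * a = (a * a) * b * (a * a) := by group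
          _ = b := by rw [haa]; group
      have h7 := hex_top haa hcc (h6 v) (by omega) (by omega)
      rw [e1] at h7
      omega
    · have hcc : (a * b * a) * (a * b * a) = 1 := by
        calc (a * b * a) * (a * b * a) = a * b * (a * a) * b * a := by group
          _ = a * (b * b) * a := by rw [haa]; group
          _ = a * a := by rw [hbb]; group
          _ = 1 := haa
      have e1 : (a * b * a) * b * (a * b * a) = a := by
        calc (a * b * a) * b * (a * b * a) = (a * b * a) * b * (b * a * b) := by
              rw [h5]
          _ = (a * b * a) * (b * b) * a * b := by group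
          _ = a * b * (a * a) * b := by rw [hbb]; group
          _ = a * (b * b) := by rw [haa]; group
          _ = a := by rw [hbb, mul_one]
      have h7 := hex_top hcc hbb (h6 v) (by omega) (by omega)
      rw [e1] at h7
      omega
  · exact h1 u v a hA (b * (a * v)) hbav (by omega)

end Pool.Agent.W803.DC
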